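import Pool.Agent.Helper40.DZ.Stmts

/-!
Moebius disjointness of compact group extensions: the kernels of the masses (MP_7a8f48_an).
-/

open Finset Filter MeasureTheory Topology
open scoped ComplexConjugate InnerProductSpace

namespace Pool.Agent.Helper40.DZ

open Pool.Agent.Helper16.AZ (T E Op mm fc)
open Pool.Agent.Helper16.BZ (co Wk EE ff EQ Wk_add EE_shift)
open Pool.Agent.Helper16.CZ (Tw)

theorem st_KNA (h1 : ST_NRV) (h2 : ST_NRS) (h3 : Pool.Agent.Helper16.CZ.ST_TMP) : ST_KNA := by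
  intro r d lev D ψ S φ c hT hS hφ hc q j
  have hm := h3 r lev D ψ S hT
  refine ⟨h1 r d lev q j (fun k => Wk S φ k c)
    (fun k => Wk_RI hS hm hφ (RI.of_continuous hc) k), ?_⟩
  intro k k'
  have e : EE S φ c (k + 1) (k' + 1) = fun x => EE S φ c k k' (S x) := by
    funext x
    exact EE_shift S φ c hφ.2 k k' 1 x
  show nr lev q j (EE S φ c (k + 1) (k' + 1)) = nr lev q j (EE S φ c k k')
  rw [e]
  exact h2 r lev D ψ S hT q j _ hS (EE_RI hS hm hφ (RI.of_continuous hc) k k')

end Pool.Agent.Helper40.DZ
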