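import Pool.Agent.Helper40.DZ.Stmts

/-!
Moebius disjointness of compact group extensions: the sums over a block of primes (MP_7a8f48_an).
-/

open Finset Filter MeasureTheory Topology
open scoped ComplexConjugate InnerProductSpace

namespace Pool.Agent.Helper40.DZ

open Pool.Agent.Helper16.AZ (T E Op mm fc)
open Pool.Agent.Helper16.BZ (co Wk EE ff EQ)
open Pool.Agent.Helper16.CZ (Tw)
open Pool.Agent.Helper16.MD (MS PB Rich)

theorem st_STR (h1 : ST_STA) (h2 : ST_KNA) (h3 : ST_KER) (h4 : ST_NRD) (h5 : ST_PAR)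
    (h6 : Pool.Agent.Helper16.CZ.ST_TMP) : ST_STR := by
  intro r d lev D ψ S φ c κ H₀ hT hS hφ hc hκ hH₀ hW
  have hm := h6 r lev D ψ S hT
  have hRI : ∀ k k', RI (EE S φ c k k') := fun k k' =>
    EE_RI hS hm hφ (RI.of_continuous hc) k k'
  have hmem : ∀ k k', MemLp (EE S φ c k k') 2 (mm r) := fun k k' => (hRI k k').memLp 2
  have hsta := h1 r d lev D ψ S φ c hT hS hφ hc (κ / 2) (by positivity)
  filter_upwards [hsta, hW] with i hi1 hi2 hrich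
  obtain ⟨t₀, ht₀⟩ := hi1 hrich
  have hw := hi2 hrich
  obtain ⟨t, ht⟩ : ∃ t, t = t₀ + 1 := ⟨_, rfl⟩
  have htpos : 1 ≤ t := by omega
  obtain ⟨H, hH⟩ : ∃ H, H = H₀ * t := ⟨_, rfl⟩
  have hH1 : 1 ≤ H := by rw [hH]; exact Nat.mul_pos hH₀ htpos
  have hHt : t₀ ≤ H := by
    have := Nat.le_mul_of_pos_left t hH₀
    omega
  have hres := ht₀ H hHt
  obtain ⟨cd, hcd⟩ : ∃ cd : ℝ, cd = ((PB 1 i).card : ℝ) := ⟨_, rfl⟩
  have hcd0 : 0 ≤ cd := by rw [hcd]; exact Nat.cast_nonneg _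
  rw [← hcd] at hres hw
  -- the main term
  have hker : ∀ p : ℕ, ∑ h ∈ range H, ∑ h' ∈ range H,
      ‖∫ x, EE S φ c (p * h) (p * h') x ∂(mm r)‖ ^ 2 ≤
      (t : ℝ) ^ 2 * ∑ h ∈ range H₀, ∑ h' ∈ range H₀,
        ‖∫ x, EE S φ c (p * h) (p * h') x ∂(mm r)‖ ^ 2 := by
    intro p
    have e1 := (h3 _ (h2 r d lev D ψ S φ c hT hS hφ hc 0 0)).2 p H₀ t
    have e2 : ∀ k k', nr lev 0 0 (EE S φ c k k') =
        ‖∫ x, EE S φ c k k' x ∂(mm r)‖ ^ 2 := fun k k' =>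
      (h4 r lev _ (hmem k k')).2.2.2
    simp only [e2] at e1
    rw [hH]
    exact e1
  have hmain : ∑ h ∈ range H, ∑ h' ∈ range H, cd * ∑ p ∈ PB 1 i,
      ‖∫ x, EE S φ c (p * h) (p * h') x ∂(mm r)‖ ^ 2 ≤ κ * cd ^ 2 * (H : ℝ) ^ 2 := by
    have e1 : ∑ h ∈ range H, ∑ h' ∈ range H, cd * ∑ p ∈ PB 1 i,
        ‖∫ x, EE S φ c (p * h) (p * h') x ∂(mm r)‖ ^ 2 =
        cd * ∑ p ∈ PB 1 i, ∑ h ∈ range H, ∑ h' ∈ range H,
          ‖∫ x, EE S φ c (p * h) (p * h') x ∂(mm r)‖ ^ 2 := by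
      simp only [← Finset.mul_sum]
      congr 1
      refine (Finset.sum_congr rfl fun h _ => Finset.sum_comm).trans ?_
      exact Finset.sum_comm
    rw [e1]
    have e2 : ∑ p ∈ PB 1 i, ∑ h ∈ range H, ∑ h' ∈ range H,
        ‖∫ x, EE S φ c (p * h) (p * h') x ∂(mm r)‖ ^ 2 ≤
        ∑ p ∈ PB 1 i, (t : ℝ) ^ 2 * ∑ h ∈ range H₀, ∑ h' ∈ range H₀,
          ‖∫ x, EE S φ c (p * h) (p * h') x ∂(mm r)‖ ^ 2 :=
      Finset.sum_le_sum fun p _ => hker p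
    rw [← Finset.mul_sum] at e2
    have e3 : (t : ℝ) ^ 2 * ∑ p ∈ PB 1 i, ∑ h ∈ range H₀, ∑ h' ∈ range H₀,
        ‖∫ x, EE S φ c (p * h) (p * h') x ∂(mm r)‖ ^ 2 ≤
        (t : ℝ) ^ 2 * (κ * cd * (H₀ : ℝ) ^ 2) :=
      mul_le_mul_of_nonneg_left hw (by positivity)
    have e4 : (H : ℝ) = H₀ * t := by rw [hH, Nat.cast_mul]
    rw [e4]
    calc cd * ∑ p ∈ PB 1 i, ∑ h ∈ range H, ∑ h' ∈ range H,
          ‖∫ x, EE S φ c (p * h) (p * h') x ∂(mm r)‖ ^ 2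
        ≤ cd * ((t : ℝ) ^ 2 * (κ * cd * (H₀ : ℝ) ^ 2)) :=
          mul_le_mul_of_nonneg_left (e2.trans e3) hcd0
      _ = κ * cd ^ 2 * ((H₀ : ℝ) * t) ^ 2 := by ring
  refine ⟨H, hH1, ?_⟩
  intro Q hQ x
  rcases Nat.eq_zero_or_pos (PB 1 i).card with h0 | h0
  · have hPB : PB 1 i = ∅ := Finset.card_eq_zero.1 h0
    have hQ0 : Q = ∅ := by
      rw [hPB] at hQ
      exact Finset.subset_empty.1 hQ
    refine Eventually.of_forall fun M => ?_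
    rw [hQ0]
    simp only [Finset.sum_empty, norm_zero]
    have : (0 : ℝ) ≤ 2 * κ * ((PB 1 i).card : ℝ) ^ 2 * (H : ℝ) ^ 2 * M := by positivity
    simpa using this
  · have hcdpos : 0 < cd := by rw [hcd]; exact_mod_cast h0
    obtain ⟨ε, hε⟩ : ∃ ε : ℝ, ε = κ / 2 * cd ^ 2 := ⟨_, rfl⟩
    have hεpos : 0 < ε := by rw [hε]; positivity
    obtain ⟨A, hA⟩ : ∃ A : ℕ → ℕ → ℝ, A = fun h h' =>
        ∑ p ∈ PB 1 i, ∫ y, ‖EE S φ c (p * h) (p * h') y‖ ^ 2 ∂(mm r) +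
        ∑ p ∈ PB 1 i, ∑ q ∈ (PB 1 i).erase p, mq lev q (EE S φ c (p * h) (p * h')) := ⟨_, rfl⟩
    have hpar : ∀ h ∈ range H, ∀ h' ∈ range H, ∀ᶠ M : ℕ in atTop,
        ∑ y ∈ Icc 1 M, ‖∑ p ∈ Q, EE S φ c (p * h) (p * h') (S^[p * y] x)‖ ^ 2 ≤
        (cd * ∑ p ∈ PB 1 i, ‖∫ x, EE S φ c (p * h) (p * h') x ∂(mm r)‖ ^ 2 + A h h' + ε) * M := by
      intro h _ h' _
      have e1 := h5 r lev D ψ S hT x Q (fun p => EE S φ c (p * h) (p * h'))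
        (fun p hp => ((Finset.mem_filter.1 (hQ hp)).2).1) (fun p _ => hRI _ _) ε hεpos
      filter_upwards [e1] with M hM
      refine hM.trans (mul_le_mul_of_nonneg_right ?_ (Nat.cast_nonneg _))
      have a1 : ‖∑ p ∈ Q, ∫ y, EE S φ c (p * h) (p * h') y ∂(mm r)‖ ^ 2 ≤
          cd * ∑ p ∈ PB 1 i, ‖∫ x, EE S φ c (p * h) (p * h') x ∂(mm r)‖ ^ 2 := by
        have b1 : ‖∑ p ∈ Q, ∫ y, EE S φ c (p * h) (p * h') y ∂(mm r)‖ ^ 2 ≤
            (∑ p ∈ Q, ‖∫ y, EE S φ c (p * h) (p * h') y ∂(mm r)‖) ^ 2 :=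
          pow_le_pow_left₀ (norm_nonneg _) (norm_sum_le _ _) 2
        have b2 := sq_sum_le_card_mul_sum_sq (s := Q)
          (f := fun p => ‖∫ y, EE S φ c (p * h) (p * h') y ∂(mm r)‖)
        have b3 : (Q.card : ℝ) ≤ cd := by
          rw [hcd]
          exact_mod_cast Finset.card_le_card hQ
        have b4 : ∑ p ∈ Q, ‖∫ y, EE S φ c (p * h) (p * h') y ∂(mm r)‖ ^ 2 ≤
            ∑ p ∈ PB 1 i, ‖∫ y, EE S φ c (p * h) (p * h') y ∂(mm r)‖ ^ 2 :=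
          Finset.sum_le_sum_of_subset_of_nonneg hQ fun _ _ _ => sq_nonneg _
        refine (b1.trans b2).trans (mul_le_mul b3 b4 ?_ hcd0)
        exact Finset.sum_nonneg fun _ _ => sq_nonneg _
      have a2 : ∑ p ∈ Q, ∫ y, ‖EE S φ c (p * h) (p * h') y‖ ^ 2 ∂(mm r) ≤
          ∑ p ∈ PB 1 i, ∫ y, ‖EE S φ c (p * h) (p * h') y‖ ^ 2 ∂(mm r) :=
        Finset.sum_le_sum_of_subset_of_nonneg hQ fun _ _ _ =>
          integral_nonneg fun _ => sq_nonneg _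
      have hmq : ∀ p q, 0 ≤ mq lev q (EE S φ c (p * h) (p * h')) := fun p q =>
        ((h4 r lev _ (hmem _ _)).2.2.1 q).1
      have a3 : ∑ p ∈ Q, ∑ q ∈ Q.erase p, mq lev q (EE S φ c (p * h) (p * h')) ≤
          ∑ p ∈ PB 1 i, ∑ q ∈ (PB 1 i).erase p, mq lev q (EE S φ c (p * h) (p * h')) := by
        refine (Finset.sum_le_sum fun p _ => Finset.sum_le_sum_of_subset_of_nonneg
          (Finset.erase_subset_erase p hQ) fun _ _ _ => hmq _ _).trans ?_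
        exact Finset.sum_le_sum_of_subset_of_nonneg hQ fun _ _ _ =>
          Finset.sum_nonneg fun _ _ => hmq _ _
      rw [hA]
      dsimp only
      linarith
    have hall : ∀ᶠ M : ℕ in atTop, ∀ h ∈ range H, ∀ h' ∈ range H,
        ∑ y ∈ Icc 1 M, ‖∑ p ∈ Q, EE S φ c (p * h) (p * h') (S^[p * y] x)‖ ^ 2 ≤
        (cd * ∑ p ∈ PB 1 i, ‖∫ x, EE S φ c (p * h) (p * h') x ∂(mm r)‖ ^ 2 + A h h' + ε) * M := by
      rw [Filter.eventually_all_finset]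
      intro h hh
      rw [Filter.eventually_all_finset]
      exact hpar h hh
    filter_upwards [hall] with M hM
    have e1 := Finset.sum_le_sum fun h hh => Finset.sum_le_sum fun h' hh' => hM h hh h' hh'
    refine e1.trans ?_
    simp only [← Finset.sum_mul]
    refine mul_le_mul_of_nonneg_right ?_ (Nat.cast_nonneg _)
    simp only [Finset.sum_add_distrib]
    have e2 : ∑ h ∈ range H, ∑ h' ∈ range H, A h h' ≤ κ / 2 * cd ^ 2 * (H : ℝ) ^ 2 := by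
      rw [hA]
      exact hres
    have e3 : ∑ _h ∈ range H, ∑ _h' ∈ range H, ε = (H : ℝ) ^ 2 * ε := by
      rw [Finset.sum_const, Finset.sum_const, Finset.card_range, nsmul_eq_mul, nsmul_eq_mul]
      ring
    rw [e3, ← hcd, hε]
    linarith [hmain, e2]

end Pool.Agent.Helper40.DZ
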